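import Pool.Agent.DV.Main
import Pool.Agent.DV.Sharp

/-!
Families of disjoint rays with prescribed starting vertices which devour an end.

(1) For every end `ω` of every graph (no countability assumption), every nonempty family `K` of
pairwise disjoint `ω`-rays of any cardinality and every countable set `U` of vertices there is a
family `K'` of pairwise disjoint `ω`-rays with the same starting vertices, `K' \ K` countable, which
meets every `ω`-ray that has a vertex in `U`.
(2) Hence, if `ω` is a countable end, `K'` devours `ω`: this is Q1 (finite families included).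
(3) Countability is essential: for every uncountable cardinal there are an end devoured by that many
disjoint rays and a family `K` of the same cardinality for which no `K'` devours the end.

The definitions are in `Pool/Agent/DV/Defs.lean`.
-/

namespace Pool.Agent.Results.MP_23b168_co.EndDevouring

open DV

universe u v

theorem result :
    (∀ (V : Type u) (G : SimpleGraph V) (ω : Set (ℕ → V)), IsEnd G ω →
      ∀ K : Set (ℕ → V), K ⊆ ω → K.Nonempty → Disjoint' K → ∀ U : Set V, U.Countable →
        ∃ K' : Set (ℕ → V), K' ⊆ ω ∧ Disjoint' K' ∧ starts K' = starts K ∧ (K' \ K).Countable ∧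
          ∀ q ∈ ω, (∃ i, q i ∈ U) → ∃ r ∈ K', Meets q r) ∧
    (∀ (V : Type u) (G : SimpleGraph V) (ω : Set (ℕ → V)), IsEnd G ω → CountableEnd G ω →
      ∀ K : Set (ℕ → V), K ⊆ ω → K.Nonempty → Disjoint' K →
        ∃ K' : Set (ℕ → V), K' ⊆ ω ∧ Disjoint' K' ∧ starts K' = starts K ∧ Devours K' ω) ∧
    (∀ κ : Cardinal.{v}, Cardinal.aleph0 < κ →
      ∃ (V : Type v) (G : SimpleGraph V) (ω : Set (ℕ → V)), IsEnd G ω ∧
        (∃ D : Set (ℕ → V), D ⊆ ω ∧ Disjoint' D ∧ Cardinal.mk D = κ ∧ Devours D ω) ∧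
        ∃ K : Set (ℕ → V), K ⊆ ω ∧ Disjoint' K ∧ Cardinal.mk K = κ ∧
          ∀ K' : Set (ℕ → V), K' ⊆ ω → Disjoint' K' → starts K' = starts K →
            ¬ Devours K' ω) := by
  refine ⟨?_, ?_, ?_⟩
  · intro V G ω hω K hK hne hdis U hU
    exact main hω K hK hne hdis U hU
  · rintro V G ω hω ⟨D, hDc, -, hDd⟩ K hK hne hdis
    obtain ⟨K', h1, h2, h3, -, h5⟩ := main hω K hK hne hdis (⋃ d ∈ D, Set.range d)
      (hDc.biUnion fun d _ => Set.countable_range d)
    refine ⟨K', h1, h2, h3, fun q hq => h5 q hq ?_⟩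
    obtain ⟨d, hd, i, j, hij⟩ := hDd q hq
    refine ⟨i, ?_⟩
    rw [hij]
    exact Set.mem_biUnion hd ⟨j, rfl⟩
  · intro κ hκ
    obtain ⟨α, rfl⟩ : ∃ α : Type v, Cardinal.mk α = κ := ⟨κ.out, κ.mk_out⟩
    have hα : Uncountable α := Cardinal.aleph0_lt_mk_iff.1 hκ
    obtain ⟨ω, h1, h2, h3⟩ := sharp α hα
    exact ⟨_, _, ω, h1, h2, h3⟩

end Pool.Agent.Results.MP_23b168_co.EndDevouring
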